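import Mathlib
import Pool.Agent.Lib.MP_2d002d_gt.PM.Interfaces

/-!
# MP_2d002d_gt, project PM, module APXS: smooth profiles of even log-concave densities
-/

set_option autoImplicit false

open MeasureTheory Set Filter Topology
open scoped ENNReal

namespace Pool.Agent.Lib.MP_2d002d_gt.PM.H30

open Pool.Agent.Lib.MP_2d002d_gt.H29 (ELC lay layer_one)

/-- the profile of `f` -/
noncomputable def Sf (f : ℝ → ℝ) (z : ℝ) : ℝ := sSup {x | Real.exp (-z) ≤ f x}

section prof

variable {f : ℝ → ℝ} {R : ℝ} (hf : ELC f) (h0 : f 0 = 1) (hR : ∀ x, R < |x| → f x = 0)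

include hf in
lemma f_anti {x y : ℝ} (h : |x| ≤ |y|) : f y ≤ f x := by
  have key : ∀ a b : ℝ, 0 ≤ a → a ≤ b → f b ≤ f a := by
    intro a b ha hab
    rcases eq_or_lt_of_le (ha.trans hab) with hb | hb
    · have : a = b := le_antisymm hab (hb ▸ ha)
      rw [this]
    · have h1 := hf.mul_le (θ := a / b) (by positivity) ((div_le_one hb).2 hab) b
      rwa [div_mul_cancel₀ _ hb.ne'] at h1
  have e : ∀ x : ℝ, f |x| = f x := by
    intro x
    rcases abs_choice x with h | h
    · rw [h]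
    · rw [h, hf.even]
  rw [← e x, ← e y]
  exact key _ _ (abs_nonneg _) h

include hR in
lemma mem_le {z x : ℝ} (hx : Real.exp (-z) ≤ f x) : |x| ≤ R := by
  by_contra h
  rw [hR x (not_le.1 h)] at hx
  exact absurd hx (not_le.2 (Real.exp_pos _))

include hR in
lemma bdd (z : ℝ) : BddAbove {x | Real.exp (-z) ≤ f x} :=
  ⟨R, fun _ hx => (le_abs_self _).trans (mem_le hR hx)⟩

include h0 in
lemma zero_mem {z : ℝ} (hz : 0 ≤ z) : (0 : ℝ) ∈ {x | Real.exp (-z) ≤ f x} := by
  simp only [mem_ofPred_eq, h0]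
  exact Real.exp_le_one_iff.2 (by linarith)

include h0 hR in
lemma Sf_nonneg {z : ℝ} (hz : 0 ≤ z) : 0 ≤ Sf f z := le_csSup (bdd hR z) (zero_mem h0 hz)

include h0 hR in
lemma Sf_le {z : ℝ} (hz : 0 ≤ z) : Sf f z ≤ R :=
  csSup_le ⟨0, zero_mem h0 hz⟩ (fun _ hx => (le_abs_self _).trans (mem_le hR hx))

include h0 hR in
lemma Sf_mono {z w : ℝ} (hz : 0 ≤ z) (hzw : z ≤ w) : Sf f z ≤ Sf f w :=
  csSup_le_csSup (bdd hR w) ⟨0, zero_mem h0 hz⟩
    (fun _ hx => (Real.exp_le_exp.2 (by linarith)).trans hx)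

include hf h0 hR in
lemma Sf_concave : ConcaveOn ℝ (Ici (0 : ℝ)) (Sf f) := by
  refine ⟨convex_Ici 0, ?_⟩
  intro z hz w hw a b ha hb hab
  simp only [smul_eq_mul]
  have hz' : 0 ≤ z := hz
  have hw' : 0 ≤ w := hw
  have hb' : b = 1 - a := by linarith
  subst hb'
  rcases eq_or_lt_of_le ha with h | ha
  · rw [← h]; simp
  rcases eq_or_lt_of_le hb with h | hb
  · have : a = 1 := by linarith
    subst this; simp
  have key : ∀ x ∈ {x | Real.exp (-z) ≤ f x}, ∀ y ∈ {x | Real.exp (-w) ≤ f x},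
      a * x + (1 - a) * y ≤ Sf f (a * z + (1 - a) * w) := by
    intro x hx y hy
    simp only [mem_ofPred_eq] at hx hy
    refine le_csSup (bdd hR _) ?_
    simp only [mem_ofPred_eq]
    refine le_trans ?_ (hf.lc x y a ha.le (by linarith))
    calc Real.exp (-(a * z + (1 - a) * w)) = Real.exp (-z) ^ a * Real.exp (-w) ^ (1 - a) := by
          rw [← Real.exp_mul, ← Real.exp_mul, ← Real.exp_add]; congr 1; ring
      _ ≤ f x ^ a * f y ^ (1 - a) :=
          mul_le_mul (Real.rpow_le_rpow (Real.exp_pos _).le hx ha.le)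
            (Real.rpow_le_rpow (Real.exp_pos _).le hy hb.le)
            (Real.rpow_nonneg (Real.exp_pos _).le _) (Real.rpow_nonneg (hf.nonneg _) _)
  have k1 : ∀ y ∈ {x | Real.exp (-w) ≤ f x},
      a * Sf f z + (1 - a) * y ≤ Sf f (a * z + (1 - a) * w) := by
    intro y hy
    have : Sf f z ≤ (Sf f (a * z + (1 - a) * w) - (1 - a) * y) / a := by
      refine csSup_le ⟨0, zero_mem h0 hz'⟩ (fun x hx => ?_)
      rw [le_div_iff₀ ha]
      have := key x hx y hy
      linarith
    rw [le_div_iff₀ ha] at this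
    linarith
  have : Sf f w ≤ (Sf f (a * z + (1 - a) * w) - a * Sf f z) / (1 - a) := by
    refine csSup_le ⟨0, zero_mem h0 hw'⟩ (fun y hy => ?_)
    rw [le_div_iff₀ hb]
    have := k1 y hy
    linarith
  rw [le_div_iff₀ hb] at this
  linarith

include hf h0 hR in
lemma Sf_cont {z : ℝ} (hz : 0 < z) : ContinuousAt (Sf f) z := by
  have h := ((Sf_concave hf h0 hR).subset Ioi_subset_Ici_self (convex_Ioi 0)).continuousOn
    isOpen_Ioi
  exact h.continuousAt (isOpen_Ioi.mem_nhds hz)

include hf h0 in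
lemma le_of_lt_Sf {z x : ℝ} (hz : 0 ≤ z) (h : |x| < Sf f z) : Real.exp (-z) ≤ f x := by
  obtain ⟨y, hy, hxy⟩ := exists_lt_of_lt_csSup ⟨0, zero_mem h0 hz⟩ h
  exact le_trans hy (f_anti hf (hxy.le.trans (le_abs_self y)))

include hf hR in
lemma lt_of_Sf_lt {z x : ℝ} (h : Sf f z < |x|) : f x < Real.exp (-z) := by
  by_contra h1
  have h2 : |x| ∈ {x | Real.exp (-z) ≤ f x} := by
    simp only [mem_ofPred_eq]
    exact (not_lt.1 h1).trans (f_anti hf (by rw [abs_abs]))
  exact absurd (le_csSup (bdd hR z) h2) (not_le.2 h)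

/-- flat values -/
def Flat (f : ℝ → ℝ) : Set ℝ := {v | ∃ z w, 0 < z ∧ z < w ∧ Sf f z = v ∧ Sf f w = v}

include hf h0 hR in
lemma flat_sub : (Flat f).Subsingleton := by
  have key : ∀ v v', v ∈ Flat f → v' ∈ Flat f → ¬ v < v' := by
    rintro v v' ⟨z, w, hz, hzw, h1, h2⟩ ⟨z', w', hz', hzw', h1', h2'⟩ hv
    have hlt : w < z' := by
      by_contra h
      have := Sf_mono h0 hR hz'.le (not_lt.1 h)
      rw [h1', h2] at this
      exact absurd this (not_le.2 hv)
    have hc := (Sf_concave hf h0 hR).slope_anti_adjacent (x := z) (y := w) (z := z')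
      hz.le (mem_Ici.2 hz'.le) hzw hlt
    rw [h1, h2, h1', sub_self, zero_div] at hc
    have : 0 < (v' - v) / (z' - w) := div_pos (by linarith) (by linarith)
    linarith
  intro v hv v' hv'
  rcases lt_trichotomy v v' with h | h | h
  · exact absurd h (key v v' hv hv')
  · exact h
  · exact absurd h (key v' v hv' hv)

/-! ### the smoothing -/

/-- the shifted profile -/
noncomputable def T (f : ℝ → ℝ) (h z : ℝ) : ℝ := Sf f (max z 0 + h)

include hf h0 hR in
lemma T_cont {h : ℝ} (hh : 0 < h) : Continuous (T f h) := by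
  rw [continuous_iff_continuousAt]
  intro z
  have hp : 0 < max z 0 + h := by
    have := le_max_right z 0
    linarith
  have h1 : ContinuousAt (fun z : ℝ => max z 0 + h) z := by fun_prop
  exact ContinuousAt.comp (f := fun z : ℝ => max z 0 + h) (g := Sf f) (Sf_cont hf h0 hR hp) h1

include h0 hR in
lemma T_mono {h : ℝ} (hh : 0 < h) : Monotone (T f h) := by
  intro z w hzw
  refine Sf_mono h0 hR ?_ (by have := max_le_max_right 0 hzw; linarith)
  have := le_max_right z 0
  linarith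

include h0 hR in
lemma T_nonneg {h : ℝ} (hh : 0 < h) (z : ℝ) : 0 ≤ T f h z :=
  Sf_nonneg h0 hR (by have := le_max_right z 0; linarith)

include h0 hR in
lemma T_le {h : ℝ} (hh : 0 < h) (z : ℝ) : T f h z ≤ R :=
  Sf_le h0 hR (by have := le_max_right z 0; linarith)

/-- first primitive -/
noncomputable def A (f : ℝ → ℝ) (h z : ℝ) : ℝ := ∫ t in (0 : ℝ)..z, T f h t

/-- second primitive -/
noncomputable def B (f : ℝ → ℝ) (h z : ℝ) : ℝ := ∫ t in (0 : ℝ)..z, A f h t

include hf h0 hR in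
lemma hasA {h : ℝ} (hh : 0 < h) (z : ℝ) : HasDerivAt (A f h) (T f h z) z :=
  intervalIntegral.integral_hasDerivAt_right ((T_cont hf h0 hR hh).intervalIntegrable _ _)
    ((T_cont hf h0 hR hh).stronglyMeasurableAtFilter _ _) (T_cont hf h0 hR hh).continuousAt

include hf h0 hR in
lemma A_cont {h : ℝ} (hh : 0 < h) : Continuous (A f h) := by
  rw [continuous_iff_continuousAt]
  exact fun z => (hasA hf h0 hR hh z).continuousAt

include hf h0 hR in
lemma hasB {h : ℝ} (hh : 0 < h) (z : ℝ) : HasDerivAt (B f h) (A f h z) z :=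
  intervalIntegral.integral_hasDerivAt_right ((A_cont hf h0 hR hh).intervalIntegrable _ _)
    ((A_cont hf h0 hR hh).stronglyMeasurableAtFilter _ _) (A_cont hf h0 hR hh).continuousAt

/-- the smooth profile -/
noncomputable def SN (f : ℝ → ℝ) (h z : ℝ) : ℝ :=
  h + (B f h (z + 2 * h) - 2 * B f h (z + h) + B f h z) / h ^ 2

include hf h0 hR in
lemma hasSN {h : ℝ} (hh : 0 < h) (z : ℝ) : HasDerivAt (SN f h)
    ((A f h (z + 2 * h) - 2 * A f h (z + h) + A f h z) / h ^ 2) z := by
  have h1 := (hasB hf h0 hR hh (z + 2 * h)).comp_add_const z (2 * h)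
  have h2 := (hasB hf h0 hR hh (z + h)).comp_add_const z h
  have h3 := hasB hf h0 hR hh z
  exact (((h1.sub (h2.const_mul 2)).add h3).div_const (h ^ 2)).const_add h

include hf h0 hR in
lemma hasSN1 {h : ℝ} (hh : 0 < h) (z : ℝ) :
    HasDerivAt (fun z => (A f h (z + 2 * h) - 2 * A f h (z + h) + A f h z) / h ^ 2)
    ((T f h (z + 2 * h) - 2 * T f h (z + h) + T f h z) / h ^ 2) z := by
  have h1 := (hasA hf h0 hR hh (z + 2 * h)).comp_add_const z (2 * h)
  have h2 := (hasA hf h0 hR hh (z + h)).comp_add_const z h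
  have h3 := hasA hf h0 hR hh z
  exact ((h1.sub (h2.const_mul 2)).add h3).div_const (h ^ 2)

include hf h0 hR in
lemma derivSN {h : ℝ} (hh : 0 < h) :
    deriv (SN f h) = fun z => (A f h (z + 2 * h) - 2 * A f h (z + h) + A f h z) / h ^ 2 :=
  funext fun z => (hasSN hf h0 hR hh z).deriv

include hf h0 hR in
lemma derivSN2 {h : ℝ} (hh : 0 < h) : deriv (deriv (SN f h)) =
    fun z => (T f h (z + 2 * h) - 2 * T f h (z + h) + T f h z) / h ^ 2 := by
  rw [derivSN hf h0 hR hh]
  exact funext fun z => (hasSN1 hf h0 hR hh z).deriv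

include hf h0 hR in
lemma smoothSN {h : ℝ} (hh : 0 < h) : ContDiff ℝ 2 (SN f h) := by
  have e : (2 : WithTop ℕ∞) = 1 + 1 := by norm_num
  rw [e, contDiff_succ_iff_deriv]
  refine ⟨fun z => (hasSN hf h0 hR hh z).differentiableAt, by simp, ?_⟩
  rw [contDiff_one_iff_deriv, derivSN2 hf h0 hR hh, derivSN hf h0 hR hh]
  refine ⟨fun z => (hasSN1 hf h0 hR hh z).differentiableAt, ?_⟩
  have hT := T_cont hf h0 hR hh
  fun_prop

include hf h0 hR in
lemma A_step {h : ℝ} (hh : 0 < h) (z : ℝ) :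
    ∃ c ∈ Ioo z (z + h), A f h (z + h) - A f h z = h * T f h c := by
  obtain ⟨c, hc, e⟩ := exists_hasDerivAt_eq_slope (A f h) (T f h) (by linarith : z < z + h)
    (A_cont hf h0 hR hh).continuousOn (fun x _ => hasA hf h0 hR hh x)
  refine ⟨c, hc, ?_⟩
  rw [add_sub_cancel_left, eq_div_iff hh.ne'] at e
  linarith

include hf h0 hR in
lemma B_step {h : ℝ} (hh : 0 < h) (z : ℝ) :
    ∃ c ∈ Ioo z (z + 2 * h), B f h (z + 2 * h) - 2 * B f h (z + h) + B f h z =
      h ^ 2 * T f h c := by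
  have hG : ∀ x, HasDerivAt (fun x => B f h (x + h) - B f h x) (A f h (x + h) - A f h x) x :=
    fun x => ((hasB hf h0 hR hh (x + h)).comp_add_const x h).sub (hasB hf h0 hR hh x)
  obtain ⟨c, hc, e⟩ := exists_hasDerivAt_eq_slope (fun x => B f h (x + h) - B f h x)
    (fun x => A f h (x + h) - A f h x) (by linarith : z < z + h)
    (fun x _ => (hG x).continuousAt.continuousWithinAt) (fun x _ => hG x)
  obtain ⟨c', hc', e'⟩ := A_step hf h0 hR hh c
  refine ⟨c', ⟨by linarith [hc.1, hc'.1], by linarith [hc.2, hc'.2]⟩, ?_⟩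
  have e2 : z + 2 * h = z + h + h := by ring
  rw [e', add_sub_cancel_left, eq_div_iff hh.ne'] at e
  rw [e2]
  linarith

include hf h0 hR in
lemma SN_bounds {h : ℝ} (hh : 0 < h) (z : ℝ) :
    h + T f h z ≤ SN f h z ∧ SN f h z ≤ h + T f h (z + 2 * h) := by
  obtain ⟨c, hc, e⟩ := B_step hf h0 hR hh z
  have e1 : SN f h z = h + T f h c := by
    unfold SN
    rw [e]
    field_simp
  rw [e1]
  exact ⟨by linarith [T_mono h0 hR hh hc.1.le], by linarith [T_mono h0 hR hh hc.2.le]⟩

include hf h0 hR in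
lemma profSN {h : ℝ} (hh : 0 < h) (hR0 : 0 < R) : Prof (SN f h) := by
  have hT0 := T_nonneg h0 hR hh
  have hTR := T_le h0 hR hh
  have d1 : ∀ z, 0 ≤ deriv (SN f h) z ∧ deriv (SN f h) z ≤ R / h := by
    intro z
    rw [derivSN hf h0 hR hh]
    obtain ⟨c, hc, e⟩ := A_step hf h0 hR hh z
    obtain ⟨c', hc', e'⟩ := A_step hf h0 hR hh (z + h)
    have e2 : z + 2 * h = z + h + h := by ring
    have e3 : (A f h (z + 2 * h) - 2 * A f h (z + h) + A f h z) / h ^ 2 =
        (T f h c' - T f h c) / h := by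
      rw [e2]
      have : A f h (z + h + h) - 2 * A f h (z + h) + A f h z = h * (T f h c' - T f h c) := by
        linarith
      rw [this]
      field_simp
    simp only
    rw [e3]
    have hm : T f h c ≤ T f h c' := T_mono h0 hR hh (by linarith [hc.2, hc'.1])
    refine ⟨div_nonneg (by linarith) hh.le, ?_⟩
    apply div_le_div_of_nonneg_right _ hh.le
    linarith [hTR c', hT0 c]
  refine ⟨smoothSN hf h0 hR hh, fun z _ => ?_, fun z _ => (d1 z).1, fun z hz => ?_,
    ⟨max (R + h) (max (R / h) (4 * R / h ^ 2)), fun z hz => ⟨?_, ?_, ?_⟩⟩⟩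
  · linarith [(SN_bounds hf h0 hR hh z).1, hT0 z]
  · rw [derivSN2 hf h0 hR hh]
    simp only
    apply div_nonpos_of_nonpos_of_nonneg _ (by positivity)
    unfold T
    rw [max_eq_left hz, max_eq_left (by linarith : (0:ℝ) ≤ z + h),
      max_eq_left (by linarith : (0:ℝ) ≤ z + 2 * h)]
    have hc := (Sf_concave hf h0 hR).2 (mem_Ici.2 (by linarith : (0:ℝ) ≤ z + h))
      (mem_Ici.2 (by linarith : (0:ℝ) ≤ z + 2 * h + h))
      (by norm_num : (0:ℝ) ≤ 1 / 2) (by norm_num : (0:ℝ) ≤ 1 / 2) (by norm_num)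
    simp only [smul_eq_mul] at hc
    have e : 1 / 2 * (z + h) + 1 / 2 * (z + 2 * h + h) = z + h + h := by ring
    rw [e] at hc
    linarith
  · refine le_trans ?_ (le_max_left _ _)
    have h1 := SN_bounds hf h0 hR hh z
    rw [abs_of_nonneg (by linarith [hT0 z])]
    linarith [hTR (z + 2 * h)]
  · refine le_trans ?_ ((le_max_left _ _).trans (le_max_right _ _))
    rw [abs_of_nonneg (d1 z).1]
    exact (d1 z).2
  · refine le_trans ?_ ((le_max_right _ _).trans (le_max_right _ _))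
    rw [derivSN2 hf h0 hR hh]
    simp only
    rw [abs_div, abs_of_pos (by positivity : (0:ℝ) < h ^ 2)]
    apply div_le_div_of_nonneg_right _ (by positivity)
    rw [abs_le]
    constructor <;>
      linarith [hTR (z + 2 * h), hTR (z + h), hTR z, hT0 (z + 2 * h), hT0 (z + h), hT0 z]

include hf h0 hR in
/-- pointwise limits of the smoothed profiles -/
lemma SN_tendsto {z : ℝ} (hz : 0 < z) :
    Tendsto (fun N : ℕ => SN f (1 / ((N : ℝ) + 1)) z) atTop (𝓝 (Sf f z)) := by
  have hN : ∀ N : ℕ, (0:ℝ) < 1 / ((N : ℝ) + 1) := fun N => by positivity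
  have hlim : Tendsto (fun N : ℕ => 1 / ((N : ℝ) + 1)) atTop (𝓝 0) :=
    tendsto_one_div_add_atTop_nhds_zero_nat
  have hlo : ∀ N : ℕ, Sf f z ≤ SN f (1 / ((N : ℝ) + 1)) z := by
    intro N
    have h1 := (SN_bounds hf h0 hR (hN N) z).1
    have h2 : Sf f z ≤ T f (1 / ((N : ℝ) + 1)) z := by
      unfold T
      rw [max_eq_left hz.le]
      exact Sf_mono h0 hR hz.le (by linarith [hN N])
    linarith [hN N]
  have hhi : ∀ N : ℕ, SN f (1 / ((N : ℝ) + 1)) z ≤
      1 / ((N : ℝ) + 1) + Sf f (z + 3 * (1 / ((N : ℝ) + 1))) := by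
    intro N
    have h1 := (SN_bounds hf h0 hR (hN N) z).2
    have h2 : T f (1 / ((N : ℝ) + 1)) (z + 2 * (1 / ((N : ℝ) + 1))) =
        Sf f (z + 3 * (1 / ((N : ℝ) + 1))) := by
      unfold T
      rw [max_eq_left (by linarith [hN N])]
      congr 1
      ring
    linarith
  refine tendsto_of_tendsto_of_tendsto_of_le_of_le tendsto_const_nhds ?_ hlo hhi
  have h3 : Tendsto (fun N : ℕ => z + 3 * (1 / ((N : ℝ) + 1))) atTop (𝓝 z) := by
    simpa using (hlim.const_mul 3).const_add z
  have h4 := (Sf_cont hf h0 hR hz).tendsto.comp h3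
  simpa using hlim.add h4

end prof

/-- APXS -/
theorem apxs : APXS_S := by
  intro f R hf h0 hR0 hR
  have hN : ∀ N : ℕ, (0:ℝ) < 1 / ((N : ℝ) + 1) := fun N => by positivity
  have hN1 : ∀ N : ℕ, 1 / ((N : ℝ) + 1) ≤ 1 := fun N => by
    rw [div_le_one (by positivity)]
    linarith [Nat.cast_nonneg (α := ℝ) N]
  refine ⟨fun N => SN f (1 / ((N : ℝ) + 1)), fun N => profSN hf h0 hR (hN N) hR0,
    fun N z hz => ?_, ?_⟩
  · have h1 := (SN_bounds hf h0 hR (hN N) z).2
    have h2 := T_le h0 hR (hN N) (z + 2 * (1 / ((N : ℝ) + 1)))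
    have h3 := hN1 N
    linarith
  -- the exceptional set
  have hE : ∀ᵐ x : ℝ, |x| ∉ Flat f := by
    have hc : (Flat f).Countable := (flat_sub hf h0 hR).countable
    have hc2 : ((fun x : ℝ => -x) '' (Flat f)).Countable := hc.image _
    filter_upwards [hc.ae_notMem volume, hc2.ae_notMem volume] with x h1 h2 h3
    rcases abs_choice x with h | h
    · exact h1 (h ▸ h3)
    · rw [h] at h3
      exact h2 ⟨-x, h3, neg_neg x⟩
  filter_upwards [hE] with x hx
  rw [← layer_one hf.nonneg x]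
  have hset : ∫⁻ t, ENNReal.ofReal (Real.exp (-t)) * (lay f t).indicator 1 x =
      ∫⁻ t in Ioi (0:ℝ), ENNReal.ofReal (Real.exp (-t)) * (lay f t).indicator 1 x := by
    rw [← lintegral_indicator measurableSet_Ioi]
    congr 1
    ext t
    by_cases ht : t ∈ Ioi (0:ℝ)
    · rw [indicator_of_mem ht]
    · rw [indicator_of_notMem ht, indicator_of_notMem, mul_zero]
      simp only [lay, mem_ofPred_eq, not_lt]
      refine (hf.le_zero x).trans ?_
      rw [h0]
      rw [mem_Ioi, not_lt] at ht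
      exact Real.one_le_exp (by linarith)
  rw [hset]
  unfold ly
  have hcont : ∀ N : ℕ, Continuous (SN f (1 / ((N : ℝ) + 1))) := fun N =>
    (smoothSN hf h0 hR (hN N)).continuous
  refine tendsto_lintegral_of_dominated_convergence
    (fun z => ENNReal.ofReal (Real.exp (-z))) (fun N => ?_) (fun N => ?_) ?_ ?_
  · refine Measurable.ite ?_ (by fun_prop) measurable_const
    exact measurableSet_le measurable_const (hcont N).measurable
  · filter_upwards with z
    split_ifs
    · exact le_rfl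
    · exact bot_le
  · rw [← ofReal_integral_eq_lintegral_ofReal (integrableOn_exp_neg_Ioi _)
        (ae_of_all _ (fun t => (Real.exp_pos _).le))]
    exact ENNReal.ofReal_ne_top
  · -- a.e. convergence
    have hs1 : ({z : ℝ | 0 < z ∧ Sf f z = |x|}).Subsingleton := by
      intro z hz w hw
      by_contra hne
      rcases lt_or_gt_of_ne hne with h | h
      · exact hx ⟨z, w, hz.1, h, hz.2, hw.2⟩
      · exact hx ⟨w, z, hw.1, h, hw.2, hz.2⟩
    have hs2 : ({z : ℝ | Real.exp (-z) = f x}).Subsingleton := by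
      intro z hz w hw
      simp only [mem_ofPred_eq] at hz hw
      have := Real.exp_injective (hz.trans hw.symm)
      linarith
    have ae1 := hs1.countable.ae_notMem (volume.restrict (Ioi (0:ℝ)))
    have ae2 := hs2.countable.ae_notMem (volume.restrict (Ioi (0:ℝ)))
    filter_upwards [ae1, ae2, ae_restrict_mem measurableSet_Ioi] with z h1 h2 hz
    have hz : (0:ℝ) < z := hz
    have h1' : Sf f z ≠ |x| := fun h => h1 ⟨hz, h⟩
    have h2' : Real.exp (-z) ≠ f x := fun h => h2 h
    have hlim := SN_tendsto hf h0 hR hz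
    rcases lt_or_gt_of_ne h1' with h | h
    · -- Sf z < |x|
      have h3 : f x < Real.exp (-z) := lt_of_Sf_lt hf hR h
      have h4 : (lay f z).indicator (1 : ℝ → ℝ≥0∞) x = 0 := by
        apply indicator_of_notMem
        simp only [lay, mem_ofPred_eq, not_lt]
        exact h3.le
      rw [h4, mul_zero]
      have h5 : ∀ᶠ N : ℕ in atTop, SN f (1 / ((N : ℝ) + 1)) z < |x| :=
        hlim.eventually (gt_mem_nhds h)
      refine tendsto_const_nhds.congr' ?_
      filter_upwards [h5] with N hN'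
      rw [if_neg (not_le.2 hN')]
    · have h3 : Real.exp (-z) < f x := lt_of_le_of_ne (le_of_lt_Sf hf h0 hz.le h) h2'
      have h4 : (lay f z).indicator (1 : ℝ → ℝ≥0∞) x = 1 := by
        rw [indicator_of_mem]
        · rfl
        · exact h3
      rw [h4, mul_one]
      have h5 : ∀ᶠ N : ℕ in atTop, |x| < SN f (1 / ((N : ℝ) + 1)) z :=
        hlim.eventually (lt_mem_nhds h)
      refine tendsto_const_nhds.congr' ?_
      filter_upwards [h5] with N hN'
      rw [if_pos hN'.le]

end Pool.Agent.Lib.MP_2d002d_gt.PM.H30
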