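import Mathlib
import Pool.Agent.Lib.MP_2d002d_gt.PM.Interfaces

/-!
# MP_2d002d_gt, project PM, module LIM: dominated convergence for the functionals
-/

set_option autoImplicit false

open MeasureTheory Set Filter Topology
open scoped ENNReal

namespace Pool.Agent.Lib.MP_2d002d_gt.PM.H30

open Pool.Agent.Lib.MP_2d002d_gt.H29 (ELC MK)

/-- an a.e. statement on the line, read in the rescaled coordinate `i` -/
lemma ae_coord {n : ℕ} (i : Fin n) {r : ℝ} (hr : 0 < r) {p : ℝ → Prop}
    (h : ∀ᵐ x : ℝ, p x) : ∀ᵐ x : Fin n → ℝ, p (x i / r) := by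
  have h1 : ∀ᵐ x : ℝ, p (r⁻¹ • x) :=
    (Measure.quasiMeasurePreserving_smul (volume : Measure ℝ) (inv_ne_zero hr.ne')).ae h
  have h2 : ∀ᵐ x : ℝ, p (x / r) := by
    filter_upwards [h1] with x hx
    rwa [smul_eq_mul, ← div_eq_inv_mul] at hx
  exact (Measure.quasiMeasurePreserving_eval (fun _ : Fin n => (volume : Measure ℝ)) i).ae h2

/-- LIM -/
theorem lim (hLY : LY_S) : LIM_S := by
  intro n f R S U K α β s hf hS hSR hlim hU hK hUK hr
  have hly : ∀ N i, Measurable (ly (S N i)) := fun N i => (hLY _ (hS N i)).1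
  have htarget : MK f K (α + β * s) = ∫⁻ x : Fin n → ℝ,
      (∏ i, ENNReal.ofReal (f i (x i / (α + β * s)))) * K.indicator 1 x := by
    unfold MK
    rw [← lintegral_indicator hK]
    congr 1
    ext x
    by_cases hx : x ∈ K
    · rw [indicator_of_mem hx, indicator_of_mem hx, Pi.one_apply, mul_one,
        ENNReal.ofReal_prod_of_nonneg (fun i _ => (hf i).nonneg _)]
    · rw [indicator_of_notMem hx, indicator_of_notMem hx, mul_zero]
  have hcw : ∀ N x i, cw (S N) α β ∅ (s, (1 : Fin n → ℝ)) i x =
      ly (S N i) (x / (α + β * s)) := by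
    intro N x i
    unfold cw
    simp
  have hexp : ∀ (N : ℕ) (x : Fin n → ℝ), ENNReal.ofReal (Real.exp (-U N (s, x))) ≤ 1 := by
    intro N x
    rw [← ENNReal.ofReal_one]
    exact ENNReal.ofReal_le_ofReal (Real.exp_le_one_iff.2 (by linarith [(hU N).nonneg (s, x)]))
  rw [htarget]
  unfold HE
  simp only [hcw]
  refine tendsto_lintegral_of_dominated_convergence
    (fun x : Fin n → ℝ => if ∀ i, |x i| ≤ (α + β * s) * (R + 1) then 1 else 0)
    (fun N => ?_) (fun N => ?_) ?_ ?_
  · refine Measurable.mul ?_ ?_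
    · exact Finset.measurable_prod _ (fun i _ =>
        (hly N i).comp ((measurable_pi_apply i).div_const _))
    · refine ENNReal.measurable_ofReal.comp (Real.measurable_exp.comp ?_)
      exact (((hU N).smooth.continuous.comp (by fun_prop : Continuous
        (fun x : Fin n → ℝ => ((s, x) : ℝ × (Fin n → ℝ))))).measurable).neg
  · filter_upwards with x
    split_ifs with h
    · refine mul_le_one' (Finset.prod_le_one' (fun i _ => ?_)) (hexp N x)
      exact (hLY _ (hS N i)).2.2.2.1 _
    · push Not at h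
      obtain ⟨i, hi⟩ := h
      have h0 : ly (S N i) (x i / (α + β * s)) = 0 := by
        refine (hLY _ (hS N i)).2.2.2.2.2 (R + 1) (hSR N i) _ ?_
        rw [abs_div, abs_of_pos hr, lt_div_iff₀ hr]
        linarith
      rw [Finset.prod_eq_zero (Finset.mem_univ i) h0, zero_mul]
  · have hset : (fun x : Fin n → ℝ => if ∀ i, |x i| ≤ (α + β * s) * (R + 1)
        then (1 : ℝ≥0∞) else 0) =
        (Icc (fun _ : Fin n => -((α + β * s) * (R + 1)))
          (fun _ => (α + β * s) * (R + 1))).indicator 1 := by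
      ext x
      by_cases h : ∀ i, |x i| ≤ (α + β * s) * (R + 1)
      · rw [if_pos h, indicator_of_mem]
        · rfl
        · exact ⟨fun i => (abs_le.1 (h i)).1, fun i => (abs_le.1 (h i)).2⟩
      · rw [if_neg h, indicator_of_notMem]
        intro hx
        exact h (fun i => abs_le.2 ⟨hx.1 i, hx.2 i⟩)
    rw [hset, lintegral_indicator_one measurableSet_Icc]
    exact isCompact_Icc.measure_lt_top.ne
  · have hall : ∀ᵐ x : Fin n → ℝ, ∀ i, Tendsto (fun N => ly (S N i) (x i / (α + β * s))) atTop
        (𝓝 (ENNReal.ofReal (f i (x i / (α + β * s))))) :=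
      ae_all_iff.2 (fun i => ae_coord i hr (hlim i))
    filter_upwards [hall] with x hx
    refine ENNReal.Tendsto.mul (ENNReal.tendsto_finsetProd_of_ne_top _ (fun i _ => hx i)
      (fun i _ => ENNReal.ofReal_ne_top)) (Or.inr ?_) (hUK x) (Or.inr ?_)
    · by_cases h : x ∈ K
      · rw [indicator_of_mem h]; simp
      · rw [indicator_of_notMem h]; simp
    · exact ENNReal.prod_ne_top (fun i _ => ENNReal.ofReal_ne_top)

end Pool.Agent.Lib.MP_2d002d_gt.PM.H30
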